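import Mathlib

set_option autoImplicit false

namespace Pool.Agent.Lib.MP_e51b07_al

universe u

/-- `DT_G(H, K)`: the set of left transversals of `H` that are also right transversals of `K`,
i.e. of the subsets `S` of `G` which meet every left coset `gH` in exactly one element and every
right coset `Kg` in exactly one element. -/
def DT {G : Type u} [Group G] (H K : Subgroup G) : Set (Set G) :=
  {S | (∀ g : G, ∃! s, s ∈ S ∧ g⁻¹ * s ∈ H) ∧ (∀ g : G, ∃! s, s ∈ S ∧ s * g⁻¹ ∈ K)}

/-- The common transversal probability `P_G(H, K) = |DT_G(H, K)| / |H| ^ (G : H)`. -/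
noncomputable def ctp {G : Type u} [Group G] (H K : Subgroup G) : ℚ :=
  (Nat.card (DT H K) : ℚ) / (Nat.card H : ℚ) ^ H.index

/-- The block diagonal matrix `diag(T₁, …, T_s)`, where `T_i` is the `t_i × t_i` matrix all of
whose entries are `1 / t_i`. -/
def blockAvg {s : ℕ} (t : Fin s → ℕ) : Matrix (Σ i, Fin (t i)) (Σ i, Fin (t i)) ℚ :=
  Matrix.blockDiagonal' fun i => Matrix.of fun _ _ => 1 / (t i : ℚ)

end Pool.Agent.Lib.MP_e51b07_al
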