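import Mathlib
import Pool.Agent.Lib.MP_e51b07_al.Defs

section

set_option autoImplicit false

namespace Pool.Agent.Lib.MP_e51b07_al

open MulAction Finset

universe u v

variable {G : Type u} [Group G] {X : Type v} [MulAction G X]

/-- Structure of the neighbourhood of an orbit of size two. -/
lemma exists_block [Finite G] (K : Subgroup G) (x0 : X)
    (hcard : Nat.card K = Nat.card (stabilizer G x0))
    (h2 : Nat.card (orbit K x0) = 2)
    (huniq : ∀ x : X, Nat.card (orbit K x) = 2 → x ∈ orbit K x0) :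
    ∃ B : Set X, x0 ∈ B ∧ (B.ncard = 2 ∨ B.ncard = 3) ∧ (∀ g ∈ K, ∀ b ∈ B, g • b ∈ B) ∧
      (∀ g ∈ stabilizer G x0, ∀ b ∈ B, g • b ∈ B) ∧
      ∀ b ∈ B, ∃ m : G, m • x0 = b ∧ ∀ b' ∈ B, m • b' ∈ B := by
  -- the orbit of `x0`
  obtain ⟨x1, hx1, horb⟩ : ∃ x1, x1 ≠ x0 ∧ orbit K x0 = {x0, x1} := by
    rw [Nat.card_coe_set_eq, Set.ncard_eq_two] at h2
    obtain ⟨a, b, hab, h⟩ := h2
    have hx0 : x0 ∈ orbit K x0 := mem_orbit_self x0
    rw [h] at hx0
    rcases hx0 with rfl | hx0
    · exact ⟨b, hab.symm, h⟩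
    · have : x0 = b := hx0
      subst this
      exact ⟨a, hab, by rw [h, Set.pair_comm]⟩
  obtain ⟨⟨k, hkK⟩, hk⟩ : ∃ k : K, k • x0 = x1 := by
    have : x1 ∈ orbit K x0 := by rw [horb]; simp
    exact this
  replace hk : k • x0 = x1 := hk
  have horbK : ∀ g ∈ K, g • x0 = x0 ∨ g • x0 = x1 := by
    intro g hg
    have : (⟨g, hg⟩ : K) • x0 ∈ orbit K x0 := mem_orbit _ _
    rw [horb] at this
    simpa using this
  -- index two
  have hidx : (stabilizer K x0).index = 2 := by
    rw [index_stabilizer, ← Nat.card_coe_set_eq, h2]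
  have hcardL : Nat.card (stabilizer K x0) * 2 = Nat.card K := by
    rw [← hidx, Subgroup.card_mul_index]
  have hcardL' : Nat.card (K.subgroupOf (stabilizer G x0)) = Nat.card (stabilizer K x0) := by
    refine Nat.card_congr ⟨fun g => ⟨⟨g.1.1, g.2⟩, g.1.2⟩, fun g => ⟨⟨g.1.1, g.2⟩, g.1.2⟩,
      fun g => rfl, fun g => rfl⟩
  have hidx' : (K.subgroupOf (stabilizer G x0)).index = 2 := by
    have h1 := Subgroup.card_mul_index (K.subgroupOf (stabilizer G x0))
    rw [hcardL', ← hcard, ← hcardL] at h1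
    exact Nat.eq_of_mul_eq_mul_left Nat.card_pos h1
  have hnK : (stabilizer K x0).Normal := Subgroup.normal_of_index_eq_two hidx
  have hnH : (K.subgroupOf (stabilizer G x0)).Normal := Subgroup.normal_of_index_eq_two hidx'
  have hnK' : ∀ l ∈ K, l • x0 = x0 → ∀ g ∈ K, (g⁻¹ * l * g) • x0 = x0 := by
    intro l hl hl0 g hg
    have := hnK.conj_mem ⟨l, hl⟩ hl0 ⟨g, hg⟩⁻¹
    rw [inv_inv] at this
    exact this
  have hnH' : ∀ l ∈ K, l • x0 = x0 → ∀ g : G, g • x0 = x0 → g⁻¹ * l * g ∈ K := by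
    intro l hl hl0 g hg
    have := hnH.conj_mem ⟨l, hl0⟩ (Subgroup.mem_subgroupOf.2 hl) ⟨g, hg⟩⁻¹
    rw [inv_inv] at this
    exact Subgroup.mem_subgroupOf.1 this
  obtain ⟨h, hh0, hhK⟩ : ∃ h : G, h • x0 = x0 ∧ h ∉ K := by
    by_contra hcon
    push Not at hcon
    have : K.subgroupOf (stabilizer G x0) = ⊤ := by
      rw [Subgroup.subgroupOf_eq_top]
      intro g hg
      exact hcon g hg
    rw [this, Subgroup.index_top] at hidx'
    norm_num at hidx'
  have hcoset : ∀ g : G, g • x0 = x0 → g ∉ K → h⁻¹ * g ∈ K := by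
    intro g hg hgK
    have := Subgroup.mul_mem_iff_of_index_two hidx' (a := (⟨h, hh0⟩ : stabilizer G x0)⁻¹)
      (b := ⟨g, hg⟩)
    have h1 : ((⟨h, hh0⟩ : stabilizer G x0)⁻¹ ∈ K.subgroupOf (stabilizer G x0)) ↔ False := by
      rw [inv_mem_iff, Subgroup.mem_subgroupOf]; simpa using hhK
    have h2 : ((⟨g, hg⟩ : stabilizer G x0) ∈ K.subgroupOf (stabilizer G x0)) ↔ False := by
      rw [Subgroup.mem_subgroupOf]; simpa using hgK
    rw [h1, h2] at this
    exact Subgroup.mem_subgroupOf.1 (this.2 Iff.rfl)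
  have hhh : h * h ∈ K := by
    have := Subgroup.mul_mem_iff_of_index_two hidx' (a := (⟨h, hh0⟩ : stabilizer G x0))
      (b := ⟨h, hh0⟩)
    exact Subgroup.mem_subgroupOf.1 (this.2 Iff.rfl)
  -- elements of `L` fix everything
  have hLx1 : ∀ l ∈ K, l • x0 = x0 → l • x1 = x1 := by
    intro l hl hl0
    have := hnK' l hl hl0 k hkK
    rw [← hk]
    calc l • k • x0 = k • ((k⁻¹ * l * k) • x0) := by
          rw [← mul_smul, ← mul_smul]; congr 1; group
      _ = k • x0 := by rw [this]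
  set x2 := h • x1 with hx2
  have hLx2 : ∀ l ∈ K, l • x0 = x0 → l • x2 = x2 := by
    intro l hl hl0
    have h1 := hnH' l hl hl0 h hh0
    have h2 : (h⁻¹ * l * h) • x0 = x0 := by
      rw [mul_smul, mul_smul, hh0, hl0]
      exact inv_smul_eq_iff.2 hh0.symm
    have h3 := hLx1 _ h1 h2
    calc l • h • x1 = h • ((h⁻¹ * l * h) • x1) := by
          rw [← mul_smul, ← mul_smul]; congr 1; group
      _ = h • x1 := by rw [h3]
  have hkx1 : k • x1 = x0 := by
    rcases horbK (k * k) (mul_mem hkK hkK) with h | h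
    · rw [mul_smul, hk] at h; exact h
    · rw [mul_smul, hk] at h
      exfalso
      apply hx1
      have : k • x1 = k • x0 := by rw [h, hk]
      exact smul_left_cancel k this
  have hhx2 : h • x2 = x1 := by
    rw [hx2, ← mul_smul]
    exact hLx1 _ hhh (by rw [mul_smul, hh0, hh0])
  have hx20 : x2 ≠ x0 := by
    intro hcon
    apply hx1
    have : h • x1 = h • x0 := by rw [hh0]; exact hcon
    exact smul_left_cancel h this
  have hKdec : ∀ g ∈ K, g • x0 = x0 ∨ ∃ l ∈ K, l • x0 = x0 ∧ g = k * l := by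
    intro g hg
    rcases horbK g hg with h | h
    · exact Or.inl h
    · refine Or.inr ⟨k⁻¹ * g, mul_mem (inv_mem hkK) hg, ?_, by group⟩
      rw [mul_smul, h, ← hk, inv_smul_smul]
  have hkx2 : k • x2 = x2 ∨ x2 = x1 := by
    by_contra hcon
    push Not at hcon
    obtain ⟨hc1, hc2⟩ := hcon
    have horb2 : orbit K x2 = {x2, k • x2} := by
      ext y
      constructor
      · rintro ⟨⟨g, hg⟩, rfl⟩
        show g • x2 ∈ _
        rcases hKdec g hg with h | ⟨l, hl, hl0, rfl⟩
        · rw [hLx2 g hg h]; simp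
        · rw [mul_smul, hLx2 l hl hl0]; simp
      · rintro (rfl | rfl)
        · exact mem_orbit_self _
        · exact ⟨⟨k, hkK⟩, rfl⟩
    have : x2 ∈ orbit K x0 := by
      apply huniq
      rw [Nat.card_coe_set_eq, horb2, Set.ncard_pair (Ne.symm hc1)]
    rw [horb] at this
    rcases this with h | h
    · exact hx20 h
    · exact hc2 h
  have hkx2B : k • x2 ∈ ({x0, x1, x2} : Set X) := by
    rcases hkx2 with h | h
    · rw [h]; simp
    · rw [h, hkx1]; simp
  have hKB : ∀ g ∈ K, ∀ b ∈ ({x0, x1, x2} : Set X), g • b ∈ ({x0, x1, x2} : Set X) := by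
    intro g hg b hb
    have hkB : ∀ b ∈ ({x0, x1, x2} : Set X), k • b ∈ ({x0, x1, x2} : Set X) := by
      rintro b (rfl | rfl | rfl)
      · rw [hk]; simp
      · rw [hkx1]; simp
      · exact hkx2B
    have hLB : ∀ l ∈ K, l • x0 = x0 → ∀ b ∈ ({x0, x1, x2} : Set X), l • b = b := by
      rintro l hl hl0 b (rfl | rfl | rfl)
      · exact hl0
      · exact hLx1 l hl hl0
      · exact hLx2 l hl hl0
    rcases hKdec g hg with h | ⟨l, hl, hl0, rfl⟩
    · rw [hLB g hg h b hb]; exact hb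
    · rw [mul_smul, hLB l hl hl0 b hb]; exact hkB b hb
  have hhB : ∀ b ∈ ({x0, x1, x2} : Set X), h • b ∈ ({x0, x1, x2} : Set X) := by
    rintro b (rfl | rfl | rfl)
    · rw [hh0]; simp
    · rw [← hx2]; simp
    · rw [hhx2]; simp
  refine ⟨{x0, x1, x2}, by simp, ?_, hKB, ?_, ?_⟩
  · by_cases h : x2 = x1
    · left
      have : ({x0, x1, x2} : Set X) = {x0, x1} := by rw [h]; simp
      rw [this, Set.ncard_pair hx1.symm]
    · right
      rw [Set.ncard_eq_three]
      exact ⟨x0, x1, x2, hx1.symm, hx20.symm, fun h' => h h'.symm, rfl⟩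
  · intro g hg b hb
    by_cases hgK : g ∈ K
    · exact hKB g hgK b hb
    · have h1 := hcoset g hg hgK
      have : g • b = h • ((h⁻¹ * g) • b) := by rw [← mul_smul]; congr 1; group
      rw [this]
      exact hhB _ (hKB _ h1 b hb)
  · rintro b (rfl | rfl | rfl)
    · exact ⟨1, one_smul _ _, fun b' hb' => by rwa [one_smul]⟩
    · exact ⟨k, hk, fun b' hb' => hKB k hkK b' hb'⟩
    · refine ⟨h * k, by rw [mul_smul, hk], fun b' hb' => ?_⟩
      rw [mul_smul]
      exact hhB _ (hKB k hkK b' hb')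

/-- The orbit sizes `2, p, 1, …, 1` (or `≤ 2`) force `2 ∣ p` or `3 ∣ p`. -/
theorem obstruction [Finite G] [Finite X] [IsPretransitive G X] (K : Subgroup G) (x0 : X)
    (hcard : Nat.card K = Nat.card (stabilizer G x0))
    (h2 : Nat.card (orbit K x0) = 2)
    (huniq : ∀ x : X, Nat.card (orbit K x) = 2 → x ∈ orbit K x0)
    (p : ℕ) (hp : 5 ≤ p) (z : X) (hz : Nat.card (orbit K z) = p)
    (hrest : ∀ x : X, x ∉ orbit K z → Nat.card (orbit K x) ≤ 2) : 2 ∣ p ∨ 3 ∣ p := by
  classical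
  obtain ⟨B, hx0B, hBcard, hKB, hHB, htrans⟩ := exists_block K x0 hcard h2 huniq
  have hBfin : B.Finite := Set.toFinite B
  let Bl : X → Set X := fun x => {y | ∃ g : G, g • x0 = x ∧ ∃ b ∈ B, g • b = y}
  have hBl : ∀ g : G, Bl (g • x0) = (fun b => g • b) '' B := by
    intro g
    ext y
    constructor
    · rintro ⟨g', hg', b, hb, rfl⟩
      refine ⟨(g⁻¹ * g') • b, hHB _ ?_ b hb, ?_⟩
      · show (g⁻¹ * g') • x0 = x0
        rw [mul_smul, hg', inv_smul_smul]
      · show g • (g⁻¹ * g') • b = g' • b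
        rw [← mul_smul]; congr 1; group
    · rintro ⟨b, hb, rfl⟩
      exact ⟨g, rfl, b, hb, rfl⟩
  have hsmul : ∀ (g : G) (x : X), Bl (g • x) = (fun b => g • b) '' Bl x := by
    intro g x
    obtain ⟨g', rfl⟩ := exists_smul_eq G x0 x
    rw [← mul_smul, hBl, hBl, Set.image_image]
    simp only [mul_smul]
  have hself : ∀ x, x ∈ Bl x := by
    intro x
    obtain ⟨g, rfl⟩ := exists_smul_eq G x0 x
    rw [hBl]
    exact ⟨x0, hx0B, rfl⟩
  have hcardBl : ∀ x, (Bl x).ncard = B.ncard := by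
    intro x
    obtain ⟨g, rfl⟩ := exists_smul_eq G x0 x
    rw [hBl]
    exact Set.ncard_image_of_injective _ (MulAction.injective g)
  have heq : ∀ x y, y ∈ Bl x → Bl y = Bl x := by
    intro x y hy
    obtain ⟨g, rfl⟩ := exists_smul_eq G x0 x
    rw [hBl] at hy
    obtain ⟨b, hb, rfl⟩ := hy
    obtain ⟨m, rfl, hm⟩ := htrans b hb
    have hmB : (fun b => m • b) '' B = B := by
      apply Set.eq_of_subset_of_ncard_le
      · rintro _ ⟨b', hb', rfl⟩; exact hm b' hb'
      · rw [Set.ncard_image_of_injective _ (MulAction.injective m)]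
      · exact hBfin
    show Bl (g • m • x0) = _
    rw [hsmul, hBl, hBl, hmB]
  -- blocks meeting the big orbit are contained in it
  have hsub : ∀ x ∈ orbit K z, ∀ y ∈ Bl x, y ∈ orbit K z := by
    intro x hx y hy
    by_contra hyn
    have horbx : orbit K x = orbit K z := orbit_eq_iff.2 hx
    have hcov : (orbit K x : Set X) ⊆ ⋃ w ∈ orbit K y, (Bl w \ {w}) := by
      rintro _ ⟨g, rfl⟩
      simp only [Set.mem_iUnion]
      refine ⟨g • y, mem_orbit _ _, ?_, ?_⟩
      · show (g : G) • x ∈ Bl ((g : G) • y)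
        rw [hsmul, heq x y hy]
        exact ⟨x, hself x, rfl⟩
      · intro hcon
        have h1 : g • x = g • y := hcon
        have h3 : x = y := smul_left_cancel g h1
        exact hyn (h3 ▸ hx)
    have hle : (⋃ w ∈ orbit K y, (Bl w \ {w})).ncard ≤ 4 := by
      have hfin : (orbit K y : Set X).Finite := Set.toFinite _
      have h1 : (⋃ w ∈ orbit K y, (Bl w \ {w})) = ⋃ w ∈ hfin.toFinset, (Bl w \ {w}) := by
        simp
      rw [h1]
      calc (⋃ w ∈ hfin.toFinset, (Bl w \ {w})).ncard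
          ≤ ∑ w ∈ hfin.toFinset, (Bl w \ {w}).ncard := Finset.set_ncard_biUnion_le _ _
        _ ≤ ∑ w ∈ hfin.toFinset, 2 := by
            refine Finset.sum_le_sum fun w _ => ?_
            rw [Set.ncard_sdiff_singleton_of_mem (hself w), hcardBl]
            omega
        _ ≤ 4 := by
            rw [Finset.sum_const, smul_eq_mul]
            have : hfin.toFinset.card = Nat.card (orbit K y) := by
              rw [Nat.card_coe_set_eq, Set.ncard_eq_toFinset_card _ hfin]
            have := hrest y hyn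
            omega
    have h3 : (orbit K x : Set X).ncard ≤ 4 :=
      (Set.ncard_le_ncard hcov (Set.toFinite _)).trans hle
    rw [horbx, ← Nat.card_coe_set_eq, hz] at h3
    omega
  -- hence the size of a block divides `p`
  have hdvd : B.ncard ∣ p := by
    have hfin : (orbit K z : Set X).Finite := Set.toFinite _
    have h1 : p = hfin.toFinset.card := by
      rw [← hz, Nat.card_coe_set_eq, Set.ncard_eq_toFinset_card _ hfin]
    rw [h1, Finset.card_eq_sum_card_image Bl]
    refine Finset.dvd_sum fun S hS => ?_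
    obtain ⟨x, hx, rfl⟩ := Finset.mem_image.1 hS
    have hx' : x ∈ orbit K z := by simpa using hx
    have h3 : (↑(hfin.toFinset.filter fun y => Bl y = Bl x) : Set X) = Bl x := by
      ext y
      simp only [Finset.coe_filter, Set.Finite.mem_toFinset, Set.mem_ofPred_eq]
      constructor
      · rintro ⟨-, h⟩
        rw [← h]; exact hself y
      · intro hy
        exact ⟨hsub x hx' y hy, heq x y hy⟩
    have h4 : (hfin.toFinset.filter fun y => Bl y = Bl x).card = B.ncard := by
      rw [← Set.ncard_coe_finset, h3, hcardBl]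
    rw [h4]
  rcases hBcard with h | h
  · left; rwa [h] at hdvd
  · right; rwa [h] at hdvd

end Pool.Agent.Lib.MP_e51b07_al
end

section

set_option autoImplicit false

namespace Pool.Agent.Lib.MP_e51b07_al

open Finset

/-- The sum over all bijections of the products of the entries of a block matrix which is
constant on the blocks. -/
lemma perm_sum {X Y B : Type*} [Fintype X] [Fintype Y] [Fintype B] [DecidableEq X]
    [DecidableEq Y] [DecidableEq B] (b : X → B) (b' : Y → B)
    (h : ∀ β, Fintype.card {x // b x = β} = Fintype.card {y // b' y = β}) (w : B → ℚ) :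
    ∑ π : X ≃ Y, ∏ x, (if b x = b' (π x) then w (b x) else 0) =
      ∏ β, ((Fintype.card {x // b x = β}).factorial : ℚ) *
        w β ^ (Fintype.card {x // b x = β}) := by
  classical
  -- an equivalence compatible with the block maps
  obtain ⟨e, he⟩ : ∃ e : X ≃ Y, ∀ x, b' (e x) = b x := by
    refine ⟨(Equiv.sigmaFiberEquiv b).symm.trans ((Equiv.sigmaCongrRight fun β =>
      Fintype.equivOfCardEq (h β)).trans (Equiv.sigmaFiberEquiv b')), fun x => ?_⟩
    simp only [Equiv.trans_apply, Equiv.sigmaCongrRight_apply]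
    have := ((Fintype.equivOfCardEq (h (b x))) ⟨x, rfl⟩).2
    exact this
  have h1 : ∑ π : X ≃ Y, ∏ x, (if b x = b' (π x) then w (b x) else 0) =
      ∑ σ : Equiv.Perm X, ∏ x, (if b x = b (σ x) then w (b x) else 0) := by
    symm
    refine Fintype.sum_equiv (Equiv.equivCongr (Equiv.refl X) e) _ _ fun σ => ?_
    refine Finset.prod_congr rfl fun x _ => ?_
    simp [Equiv.equivCongr, he]
  have h2 : ∀ σ : Equiv.Perm X, ∏ x, (if b x = b (σ x) then w (b x) else 0) =
      if b ∘ σ = b then ∏ x, w (b x) else 0 := by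
    intro σ
    split_ifs with hσ
    · refine Finset.prod_congr rfl fun x _ => ?_
      rw [if_pos]
      exact (congrFun hσ x).symm
    · have : ∃ x, b x ≠ b (σ x) := by
        by_contra hcon
        push Not at hcon
        exact hσ (funext fun x => (hcon x).symm)
      obtain ⟨x, hx⟩ := this
      exact Finset.prod_eq_zero (Finset.mem_univ x) (if_neg hx)
  rw [h1, Finset.sum_congr rfl fun σ _ => h2 σ, Finset.sum_ite, Finset.sum_const_zero, add_zero,
    Finset.sum_const, nsmul_eq_mul]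
  have h3 : (Finset.univ.filter fun σ : Equiv.Perm X => b ∘ σ = b).card =
      ∏ β, (Fintype.card {x // b x = β}).factorial := by
    rw [← Fintype.card_subtype, DomMulAct.stabilizer_card]
  have h4 : ∏ x, w (b x) = ∏ β, w β ^ (Fintype.card {x // b x = β}) := by
    rw [← Finset.prod_fiberwise (s := Finset.univ) (g := b) (f := fun x => w (b x))]
    refine Finset.prod_congr rfl fun β _ => ?_
    rw [Finset.prod_congr rfl (g := fun _ => w β), Finset.prod_const, Fintype.card_subtype]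
    intro x hx
    rw [(Finset.mem_filter.1 hx).2]
  rw [h3, h4, Finset.prod_mul_distrib]
  push_cast
  ring

end Pool.Agent.Lib.MP_e51b07_al
end

section

set_option autoImplicit false

namespace Pool.Agent.Lib.MP_e51b07_al

open Finset

/-- `t! / t ^ t` -/
noncomputable def ff (t : ℕ) : ℚ := (t.factorial : ℚ) / (t : ℚ) ^ t

lemma ff_pos (t : ℕ) (ht : 1 ≤ t) : 0 < ff t := by
  unfold ff
  have : (0 : ℚ) < t := by exact_mod_cast ht
  positivity

lemma ff_one : ff 1 = 1 := by norm_num [ff]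

lemma ff_two : ff 2 = 1 / 2 := by norm_num [ff, Nat.factorial]

lemma ff_three : ff 3 = 2 / 9 := by norm_num [ff, Nat.factorial]

lemma two_mul_pow_le (t : ℕ) (ht : 1 ≤ t) : 2 * t ^ t ≤ (t + 1) ^ t := by
  obtain ⟨n, rfl⟩ : ∃ n, t = n + 1 := ⟨t - 1, by omega⟩
  have := one_add_mul_le_pow (R := ℚ) (a := 1 / (n + 1)) (by
    have : (0 : ℚ) ≤ 1 / (n + 1) := by positivity
    linarith) (n + 1)
  have h2 : (1 : ℚ) + ((n + 1 : ℕ) : ℚ) * (1 / (n + 1)) = 2 := by
    push_cast; field_simp; norm_num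
  rw [h2] at this
  have h3 : (1 + 1 / ((n : ℚ) + 1)) = ((n + 1 + 1 : ℕ) : ℚ) / ((n + 1 : ℕ) : ℚ) := by
    push_cast; field_simp
  rw [h3, div_pow, le_div_iff₀ (by positivity)] at this
  exact_mod_cast this

lemma two_mul_pow_lt (t : ℕ) (ht : 2 ≤ t) : 2 * t ^ t < (t + 1) ^ t := by
  have h1 : 2 * (t ^ (t - 1)) ≤ (t + 1) ^ (t - 1) * 2 := by
    have : t ^ (t - 1) ≤ (t + 1) ^ (t - 1) := Nat.pow_le_pow_left (by omega) _
    omega
  obtain ⟨n, rfl⟩ : ∃ n, t = n + 2 := ⟨t - 2, by omega⟩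
  -- (1 + 1/t)^t = (1+1/t)^2 (1+1/t)^(t-2)
  have hb := one_add_mul_le_pow (R := ℚ) (a := 1 / (n + 2)) (by
    have : (0 : ℚ) ≤ 1 / (n + 2) := by positivity
    linarith) n
  have hpos : (0 : ℚ) < (n : ℚ) + 2 := by positivity
  have h2 : (2 : ℚ) < (1 + 1 / ((n : ℚ) + 2)) ^ (n + 2) := by
    calc (2 : ℚ) < (1 + 1 / ((n : ℚ) + 2)) ^ 2 * (1 + (n : ℚ) * (1 / (n + 2))) := by
          have e : (1 + 1 / ((n : ℚ) + 2)) ^ 2 * (1 + (n : ℚ) * (1 / (n + 2))) - 2 =
              (2 * n ^ 2 + 6 * n + 2) / (n + 2) ^ 3 := by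
            field_simp; ring
          have e2 : (0 : ℚ) < (2 * n ^ 2 + 6 * n + 2) / (n + 2) ^ 3 := by positivity
          linarith
      _ ≤ (1 + 1 / ((n : ℚ) + 2)) ^ 2 * (1 + 1 / ((n : ℚ) + 2)) ^ n := by
          apply mul_le_mul_of_nonneg_left hb; positivity
      _ = _ := by rw [← pow_add, add_comm 2 n]
  have h3 : (1 + 1 / ((n : ℚ) + 2)) = ((n + 2 + 1 : ℕ) : ℚ) / ((n + 2 : ℕ) : ℚ) := by
    push_cast; field_simp
  rw [h3, div_pow, lt_div_iff₀ (by positivity)] at h2
  exact_mod_cast h2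

lemma ff_succ (t : ℕ) (ht : 1 ≤ t) : ff (t + 1) ≤ ff t / 2 := by
  unfold ff
  have h := two_mul_pow_le t ht
  have h' : (2 : ℚ) * (t : ℚ) ^ t ≤ ((t : ℚ) + 1) ^ t := by exact_mod_cast h
  have ht' : (0 : ℚ) < t := by exact_mod_cast ht
  rw [Nat.factorial_succ, div_div, div_le_div_iff₀ (by positivity) (by positivity), pow_succ]
  push_cast
  have hf : (0 : ℚ) < (t.factorial : ℚ) := by positivity
  have := mul_le_mul_of_nonneg_left h' (by positivity : (0 : ℚ) ≤ (t + 1) * t.factorial)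
  nlinarith [this]

lemma ff_succ_lt (t : ℕ) (ht : 2 ≤ t) : ff (t + 1) < ff t / 2 := by
  unfold ff
  have h := two_mul_pow_lt t ht
  have h' : (2 : ℚ) * (t : ℚ) ^ t < ((t : ℚ) + 1) ^ t := by exact_mod_cast h
  have ht' : (0 : ℚ) < t := by exact_mod_cast (by omega : 0 < t)
  rw [Nat.factorial_succ, div_div, div_lt_div_iff₀ (by positivity) (by positivity), pow_succ]
  push_cast
  have hf : (0 : ℚ) < (t.factorial : ℚ) := by positivity
  have := mul_lt_mul_of_pos_left h' (by positivity : (0 : ℚ) < (t + 1) * t.factorial)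
  nlinarith [this]

lemma ff_anti {s t : ℕ} (hs : 1 ≤ s) (hst : s ≤ t) : ff t ≤ ff s := by
  induction t, hst using Nat.le_induction with
  | base => exact le_rfl
  | succ n hn ih =>
    have h1 := ff_succ n (by omega)
    have h2 := ff_pos n (by omega)
    linarith

lemma ff_le_one (t : ℕ) (ht : 1 ≤ t) : ff t ≤ 1 := by
  rw [← ff_one]; exact ff_anti le_rfl ht

lemma ff_le_half (t : ℕ) (ht : 2 ≤ t) : ff t ≤ 1 / 2 := by
  rw [← ff_two]; exact ff_anti (by norm_num) ht

lemma prod_le_one' {B : Type*} (s : Finset B) (t : B → ℕ) (ht : ∀ β, 1 ≤ t β) :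
    ∏ β ∈ s, ff (t β) ≤ 1 :=
  Finset.prod_le_one (fun β _ => (ff_pos _ (ht β)).le) (fun β _ => ff_le_one _ (ht β))

/-- The value `(1/2) * p!/p^p` determines the multiset of the `t_β ≠ 1`. -/
theorem forced {B : Type*} [Fintype B] (t : B → ℕ) (ht : ∀ β, 1 ≤ t β) (p : ℕ)
    (hp : p.Prime) (h3 : 3 ≤ p) (h : ∏ β, ff (t β) = 1 / 2 * ff p) :
    ∃ β₁ β₂, t β₁ = 2 ∧ t β₂ = p ∧ ∀ β, β ≠ β₁ → β ≠ β₂ → t β = 1 := by
  classical
  have hppos := ff_pos p (by omega)
  -- step 1
  have hle : ∀ β, t β ≤ p := by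
    intro β
    by_contra hβ
    push Not at hβ
    have h1 : ∏ β, ff (t β) ≤ ff (t β) := by
      rw [← Finset.mul_prod_erase _ _ (Finset.mem_univ β)]
      have := prod_le_one' (Finset.univ.erase β) t ht
      have := ff_pos _ (ht β)
      nlinarith
    have h2 : ff (t β) ≤ ff (p + 1) := ff_anti (by omega) hβ
    have h3 := ff_succ_lt p (by omega)
    linarith
  -- step 2
  have hnat : (∏ β, (t β).factorial) * (2 * p ^ p) = p.factorial * ∏ β, (t β) ^ (t β) := by
    have hne : ∏ β, ((t β : ℚ) ^ (t β)) ≠ 0 := by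
      refine Finset.prod_ne_zero_iff.2 fun β _ => pow_ne_zero _ ?_
      have := ht β
      positivity
    have hpne : ((p : ℚ) ^ p) ≠ 0 := by
      have : (0 : ℚ) < p := by exact_mod_cast (by omega : 0 < p)
      positivity
    unfold ff at h
    rw [Finset.prod_div_distrib] at h
    field_simp at h
    have : ((∏ β, (t β).factorial : ℕ) : ℚ) * (2 * p ^ p) =
        p.factorial * ((∏ β, (t β) ^ (t β) : ℕ) : ℚ) := by
      push_cast
      linarith
    exact_mod_cast this
  set c := (Finset.univ.filter fun β => t β = p).card with hc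
  have hfac := congrArg (fun m => m.factorization p) hnat
  have hp0 : p ≠ 0 := by omega
  have ep : (p.factorization p) = 1 := hp.factorization_self
  have e1 : ∀ β, ((t β).factorial).factorization p = if t β = p then 1 else 0 := by
    intro β
    split_ifs with hβ
    · rw [hβ]
      obtain ⟨q, rfl⟩ : ∃ q, p = q + 1 := ⟨p - 1, by omega⟩
      rw [Nat.factorial_succ, Nat.factorization_mul (by omega) (Nat.factorial_ne_zero _),
        Finsupp.add_apply, ep, Nat.factorization_eq_zero_of_not_dvd, add_zero]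
      rw [hp.dvd_factorial]
      omega
    · apply Nat.factorization_eq_zero_of_not_dvd
      rw [hp.dvd_factorial]
      have := hle β
      omega
  have e2 : ∀ β, ((t β) ^ (t β)).factorization p = if t β = p then p else 0 := by
    intro β
    rw [Nat.factorization_pow, Finsupp.smul_apply, smul_eq_mul]
    split_ifs with hβ
    · rw [hβ, ep, mul_one]
    · rw [Nat.factorization_eq_zero_of_not_dvd, mul_zero]
      intro hdvd
      have := Nat.le_of_dvd (ht β) hdvd
      have := hle β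
      omega
  have e3 : p.factorial.factorization p = 1 := by
    obtain ⟨q, rfl⟩ : ∃ q, p = q + 1 := ⟨p - 1, by omega⟩
    rw [Nat.factorial_succ, Nat.factorization_mul (by omega) (Nat.factorial_ne_zero _),
        Finsupp.add_apply, ep, Nat.factorization_eq_zero_of_not_dvd, add_zero]
    rw [hp.dvd_factorial]
    omega
  have e4 : (2 : ℕ).factorization p = 0 := by
    apply Nat.factorization_eq_zero_of_not_dvd
    intro hdvd
    have := Nat.le_of_dvd (by norm_num) hdvd
    omega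
  have e5 : (p ^ p).factorization p = p := by
    rw [Nat.factorization_pow, Finsupp.smul_apply, smul_eq_mul, ep, mul_one]
  rw [Nat.factorization_mul (Finset.prod_ne_zero_iff.2 fun β _ => Nat.factorial_ne_zero _)
      (mul_ne_zero two_ne_zero (pow_ne_zero _ hp0)),
    Nat.factorization_mul two_ne_zero (pow_ne_zero _ hp0),
    Nat.factorization_mul (Nat.factorial_ne_zero _) (Finset.prod_ne_zero_iff.2 fun β _ =>
      pow_ne_zero _ (by have := ht β; omega)),
    Nat.factorization_prod (fun β _ => Nat.factorial_ne_zero _),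
    Nat.factorization_prod (fun β _ => pow_ne_zero _ (by have := ht β; omega))] at hfac
  simp only [Finsupp.add_apply, Finsupp.coe_finsetSum, Finset.sum_apply, e1, e2, e3, e4, e5] at hfac
  rw [← Finset.sum_filter, ← Finset.sum_filter, Finset.sum_const, Finset.sum_const, ← hc,
    smul_eq_mul, smul_eq_mul] at hfac
  have hc1 : c = 1 := by
    have h1 : (c : ℤ) * 1 + (0 + p) = 1 + c * p := by exact_mod_cast hfac
    have h2 : ((c : ℤ) - 1) * (p - 1) = 0 := by linarith
    rcases mul_eq_zero.1 h2 with h4 | h4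
    · have : (c : ℤ) = 1 := by linarith
      exact_mod_cast this
    · exfalso
      have : (p : ℤ) = 1 := by linarith
      have : p = 1 := by exact_mod_cast this
      omega
  obtain ⟨β₂, hβ₂⟩ := Finset.card_eq_one.1 hc1
  have htβ₂ : t β₂ = p := by
    have : β₂ ∈ Finset.univ.filter fun β => t β = p := by rw [hβ₂]; simp
    exact (Finset.mem_filter.1 this).2
  -- step 3
  have h4 : ∏ β ∈ Finset.univ.erase β₂, ff (t β) = 1 / 2 := by
    rw [← Finset.mul_prod_erase _ _ (Finset.mem_univ β₂), htβ₂, mul_comm] at h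
    exact mul_right_cancel₀ hppos.ne' h
  -- step 4
  obtain ⟨β₁, hβ₁, hβ₁2⟩ : ∃ β₁ ∈ Finset.univ.erase β₂, 2 ≤ t β₁ := by
    by_contra hcon
    push Not at hcon
    have : ∏ β ∈ Finset.univ.erase β₂, ff (t β) = 1 := by
      refine Finset.prod_eq_one fun β hβ => ?_
      have h1 := hcon β hβ
      have h2 := ht β
      have : t β = 1 := by omega
      rw [this, ff_one]
    rw [this] at h4
    norm_num at h4
  rw [← Finset.mul_prod_erase _ _ hβ₁] at h4
  have h5 := ff_le_half _ hβ₁2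
  have h6 := ff_pos _ (ht β₁)
  have h7 := prod_le_one' ((Finset.univ.erase β₂).erase β₁) t ht
  have h8 : ∏ β ∈ (Finset.univ.erase β₂).erase β₁, ff (t β) = 1 := by
    by_contra hne
    have : ∏ β ∈ (Finset.univ.erase β₂).erase β₁, ff (t β) < 1 := lt_of_le_of_ne h7 hne
    nlinarith
  refine ⟨β₁, β₂, ?_, htβ₂, ?_⟩
  · rw [h8, mul_one] at h4
    by_contra hne
    have h9 : ff (t β₁) ≤ ff 3 := ff_anti (by norm_num) (by omega)
    rw [h4, ff_three] at h9
    norm_num at h9
  · intro β hβ1 hβ2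
    by_contra hne
    have hmem : β ∈ (Finset.univ.erase β₂).erase β₁ := by simp [hβ1, hβ2]
    rw [← Finset.mul_prod_erase _ _ hmem] at h8
    have h9 := prod_le_one' (((Finset.univ.erase β₂).erase β₁).erase β) t ht
    have h10 := ff_le_half (t β) (by have := ht β; omega)
    have h11 := ff_pos _ (ht β)
    nlinarith

end Pool.Agent.Lib.MP_e51b07_al
end

section

set_option autoImplicit false

namespace Pool.Agent.Lib.MP_e51b07_al

open Finset

universe u

variable {G : Type u} [Group G]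

/-- sections of `G → G ⧸ H` whose inverses are also a full set of representatives for `G ⧸ K` -/
def IsSec (H K : Subgroup G) (c : G ⧸ H → G) : Prop :=
  (∀ x, (QuotientGroup.mk (c x) : G ⧸ H) = x) ∧
    Function.Bijective (fun x => (QuotientGroup.mk (c x)⁻¹ : G ⧸ K))

lemma mk_inv_eq_iff (K : Subgroup G) (s g : G) :
    (QuotientGroup.mk s⁻¹ : G ⧸ K) = QuotientGroup.mk g⁻¹ ↔ s * g⁻¹ ∈ K := by
  rw [QuotientGroup.eq]; simp

lemma mk_eq_iff (H : Subgroup G) (g s : G) :
    (QuotientGroup.mk g : G ⧸ H) = QuotientGroup.mk s ↔ g⁻¹ * s ∈ H := by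
  rw [QuotientGroup.eq]

lemma range_mem_DT {H K : Subgroup G} {c : G ⧸ H → G} (hc : IsSec H K c) :
    Set.range c ∈ DT H K := by
  refine ⟨fun g => ?_, fun g => ?_⟩
  · refine ⟨c (QuotientGroup.mk g), ⟨⟨_, rfl⟩, ?_⟩, ?_⟩
    · rw [← mk_eq_iff, hc.1]
    · rintro _ ⟨⟨x, rfl⟩, hx⟩
      rw [← mk_eq_iff, hc.1] at hx
      rw [hx]
  · obtain ⟨x, hx⟩ := hc.2.2 (QuotientGroup.mk g⁻¹)
    refine ⟨c x, ⟨⟨_, rfl⟩, ?_⟩, ?_⟩
    · rw [← mk_inv_eq_iff]; exact hx
    · rintro _ ⟨⟨y, rfl⟩, hy⟩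
      rw [← mk_inv_eq_iff, ← hx] at hy
      rw [hc.2.1 hy]

/-- Common transversals correspond to sections. -/
lemma card_DT (H K : Subgroup G) : Nat.card (DT H K) = Nat.card {c : G ⧸ H → G // IsSec H K c} := by
  symm
  refine Nat.card_congr (Equiv.ofBijective
    (fun c => (⟨Set.range c.1, range_mem_DT c.2⟩ : DT H K)) ⟨?_, ?_⟩)
  · rintro ⟨c, hc⟩ ⟨d, hd⟩ hcd
    apply Subtype.ext
    funext x
    have h1 : Set.range c = Set.range d := congrArg Subtype.val hcd
    have h2 : c x ∈ Set.range d := h1 ▸ ⟨x, rfl⟩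
    obtain ⟨y, hy⟩ := h2
    have : y = x := by rw [← hd.1 y, hy, hc.1]
    show c x = d x
    rw [← hy, this]
  · rintro ⟨S, hS1, hS2⟩
    have hS1' : ∀ g, ∃ s, (s ∈ S ∧ g⁻¹ * s ∈ H) ∧ ∀ y, (y ∈ S ∧ g⁻¹ * y ∈ H) → y = s := hS1
    choose d hd hd' using hS1'
    have hinv : ∀ x : G ⧸ H, (QuotientGroup.mk (d x.out) : G ⧸ H) = x := by
      intro x
      rw [eq_comm]
      conv_lhs => rw [← QuotientGroup.out_eq' x]
      rw [mk_eq_iff]
      exact (hd x.out).2
    have hran : Set.range (fun x : G ⧸ H => d x.out) = S := by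
      ext s
      constructor
      · rintro ⟨x, rfl⟩
        exact (hd _).1
      · intro hs
        refine ⟨QuotientGroup.mk s, ?_⟩
        refine (hd' _ s ⟨hs, ?_⟩).symm
        rw [← mk_eq_iff, QuotientGroup.out_eq']
    refine ⟨⟨fun x => d x.out, hinv, ?_, ?_⟩, Subtype.ext hran⟩
    · intro x y hxy
      simp only at hxy
      rw [mk_inv_eq_iff] at hxy
      obtain ⟨s, -, hs⟩ := hS2 (d y.out)
      have e1 := hs (d x.out) ⟨(hd _).1, hxy⟩
      have e2 := hs (d y.out) ⟨(hd _).1, by simp⟩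
      have : d x.out = d y.out := e1.trans e2.symm
      rw [← hinv x, this, hinv y]
    · intro y
      obtain ⟨s, ⟨hs1, hs2⟩, -⟩ := hS2 (y.out)⁻¹
      rw [← hran] at hs1
      obtain ⟨x, hx⟩ := hs1
      refine ⟨x, ?_⟩
      simp only at hx ⊢
      rw [hx]
      conv_rhs => rw [← QuotientGroup.out_eq' y, ← inv_inv y.out]
      rw [mk_inv_eq_iff]
      exact hs2

/-- the number of elements of `G` lying in the left coset `x` and whose inverse lies in `y` -/
noncomputable def N (H K : Subgroup G) (x : G ⧸ H) (y : G ⧸ K) : ℕ :=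
  Nat.card {s : G // (QuotientGroup.mk s : G ⧸ H) = x ∧ (QuotientGroup.mk s⁻¹ : G ⧸ K) = y}

lemma card_sec [Finite G] (H K : Subgroup G) [Fintype (G ⧸ H)] [Fintype (G ⧸ K)]
    [DecidableEq (G ⧸ H)] [DecidableEq (G ⧸ K)] :
    Nat.card {c : G ⧸ H → G // IsSec H K c} = ∑ π : (G ⧸ H) ≃ (G ⧸ K), ∏ x, N H K x (π x) := by
  classical
  have := Fintype.ofFinite G
  let f : {c : G ⧸ H → G // IsSec H K c} → ((G ⧸ H) ≃ (G ⧸ K)) :=
    fun c => Equiv.ofBijective _ c.2.2
  rw [Nat.card_congr (Equiv.sigmaFiberEquiv f).symm, Nat.card_sigma]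
  refine Finset.sum_congr rfl fun π _ => ?_
  have e1 : {c : {c : G ⧸ H → G // IsSec H K c} // f c = π} ≃
      {c : G ⧸ H → G // ∀ x, (QuotientGroup.mk (c x) : G ⧸ H) = x ∧
        (QuotientGroup.mk (c x)⁻¹ : G ⧸ K) = π x} := by
    refine ⟨fun c => ⟨c.1.1, fun x => ⟨c.1.2.1 x, ?_⟩⟩, fun c => ⟨⟨c.1, fun x => (c.2 x).1, ?_⟩, ?_⟩,
      fun c => rfl, fun c => rfl⟩
    · exact congrArg (fun e : (G ⧸ H) ≃ (G ⧸ K) => e x) c.2
    · have : (fun x => (QuotientGroup.mk (c.1 x)⁻¹ : G ⧸ K)) = π := funext fun x => (c.2 x).2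
      rw [this]; exact π.bijective
    · ext x
      exact (c.2 x).2
  have e2 : {c : G ⧸ H → G // ∀ x, (QuotientGroup.mk (c x) : G ⧸ H) = x ∧
        (QuotientGroup.mk (c x)⁻¹ : G ⧸ K) = π x} ≃
      ∀ x, {s : G // (QuotientGroup.mk s : G ⧸ H) = x ∧ (QuotientGroup.mk s⁻¹ : G ⧸ K) = π x} :=
    ⟨fun c x => ⟨c.1 x, c.2 x⟩, fun c => ⟨fun x => (c x).1, fun x => (c x).2⟩,
      fun c => rfl, fun c => rfl⟩
  rw [Nat.card_congr e1, Nat.card_congr e2, Nat.card_pi]
  rfl

end Pool.Agent.Lib.MP_e51b07_al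
end

section

set_option autoImplicit false

namespace Pool.Agent.Lib.MP_e51b07_al

open Finset

universe u

variable {G : Type u} [Group G]

/-- the `K`-orbit of a left coset of `H` -/
def bX (H K : Subgroup G) (x : G ⧸ H) : MulAction.orbitRel.Quotient K (G ⧸ H) := Quotient.mk'' x

/-- the `K`-orbit belonging to a left coset of `K` -/
noncomputable def bY (H K : Subgroup G) (y : G ⧸ K) : MulAction.orbitRel.Quotient K (G ⧸ H) :=
  Quotient.mk'' (QuotientGroup.mk (y.out)⁻¹ : G ⧸ H)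

lemma bX_eq_iff (H K : Subgroup G) (x x' : G ⧸ H) :
    bX H K x = bX H K x' ↔ ∃ k : K, k • x' = x := by
  unfold bX
  rw [Quotient.eq'', MulAction.orbitRel_apply]
  rfl

lemma bY_eq (H K : Subgroup G) (s : G) :
    bY H K (QuotientGroup.mk s⁻¹ : G ⧸ K) = bX H K (QuotientGroup.mk s : G ⧸ H) := by
  set y : G ⧸ K := QuotientGroup.mk s⁻¹ with hy
  have h1 : (QuotientGroup.mk y.out : G ⧸ K) = QuotientGroup.mk s⁻¹ := by
    rw [QuotientGroup.out_eq']
  rw [mk_eq_iff] at h1
  show bX H K (QuotientGroup.mk (y.out)⁻¹ : G ⧸ H) = _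
  rw [bX_eq_iff]
  refine ⟨⟨_, h1⟩, ?_⟩
  show (QuotientGroup.mk (_ * s) : G ⧸ H) = _
  simp

lemma N_zero {H K : Subgroup G} {x : G ⧸ H} {y : G ⧸ K} (h : bX H K x ≠ bY H K y) :
    N H K x y = 0 := by
  unfold N
  rw [Nat.card_eq_zero]
  left
  refine ⟨?_⟩
  rintro ⟨s, rfl, rfl⟩
  exact h (bY_eq H K s).symm

lemma exists_of_eq {H K : Subgroup G} {x : G ⧸ H} {y : G ⧸ K} (h : bX H K x = bY H K y) :
    ∃ s : G, (QuotientGroup.mk s : G ⧸ H) = x ∧ (QuotientGroup.mk s⁻¹ : G ⧸ K) = y := by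
  have h' : bX H K x = bX H K (QuotientGroup.mk (y.out)⁻¹ : G ⧸ H) := h
  rw [bX_eq_iff] at h'
  obtain ⟨k, hk⟩ := h'
  refine ⟨(k : G) * (y.out)⁻¹, ?_, ?_⟩
  · rw [← hk]; rfl
  · conv_rhs => rw [← QuotientGroup.out_eq' y]
    rw [mk_eq_iff]
    simp

lemma N_pos {H K : Subgroup G} {x : G ⧸ H} {y : G ⧸ K} (h : bX H K x = bY H K y) :
    N H K x y = Nat.card (MulAction.stabilizer K x) := by
  obtain ⟨s₀, rfl, rfl⟩ := exists_of_eq h
  unfold N
  refine Nat.card_congr ⟨fun s => ⟨⟨s.1 * s₀⁻¹, ?_⟩, ?_⟩, fun k => ⟨(k.1 : G) * s₀, ?_, ?_⟩, ?_, ?_⟩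
  · rw [← mk_inv_eq_iff]; exact s.2.2
  · rw [MulAction.mem_stabilizer_iff]
    show (QuotientGroup.mk (s.1 * s₀⁻¹ * s₀) : G ⧸ H) = _
    rw [inv_mul_cancel_right, s.2.1]
  · have := k.2
    rw [MulAction.mem_stabilizer_iff] at this
    exact this
  · rw [mk_inv_eq_iff]
    simp
  · intro s
    apply Subtype.ext
    simp
  · intro k
    apply Subtype.ext
    apply Subtype.ext
    simp

/-- size of a `K`-orbit of left cosets of `H` -/
noncomputable def orbSize {H K : Subgroup G} (β : MulAction.orbitRel.Quotient K (G ⧸ H)) : ℕ :=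
  Nat.card {x // bX H K x = β}

lemma orbSize_eq {H K : Subgroup G} (x : G ⧸ H) :
    orbSize (bX H K x) = Nat.card (MulAction.orbit K x) := by
  unfold orbSize
  refine Nat.card_congr (Equiv.subtypeEquivRight fun z => ?_)
  rw [bX_eq_iff]
  rfl

lemma orbSize_mul [Finite G] {H K : Subgroup G} (x : G ⧸ H) :
    orbSize (bX H K x) * Nat.card (MulAction.stabilizer K x) = Nat.card K := by
  rw [orbSize_eq, ← Nat.card_prod]
  exact Nat.card_congr (MulAction.orbitProdStabilizerEquivGroup K x)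

lemma sum_N [Finite G] (H K : Subgroup G) [Fintype (G ⧸ K)] (x : G ⧸ H) :
    ∑ y, N H K x y = Nat.card H := by
  classical
  have := Fintype.ofFinite G
  have e1 : {s : G // (QuotientGroup.mk s : G ⧸ H) = x} ≃
      Σ y : G ⧸ K, {s : G // (QuotientGroup.mk s : G ⧸ H) = x ∧
        (QuotientGroup.mk s⁻¹ : G ⧸ K) = y} :=
    ⟨fun s => ⟨QuotientGroup.mk s.1⁻¹, s.1, s.2, rfl⟩, fun s => ⟨s.2.1, s.2.2.1⟩, fun s => rfl, by
      rintro ⟨y, s, h1, rfl⟩; rfl⟩
  have e2 : Nat.card {s : G // (QuotientGroup.mk s : G ⧸ H) = x} = Nat.card H := by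
    obtain ⟨g, rfl⟩ := QuotientGroup.mk_surjective x
    refine Nat.card_congr ⟨fun s => ⟨g⁻¹ * s.1, ?_⟩, fun h => ⟨g * h.1, ?_⟩, ?_, ?_⟩
    · rw [← mk_eq_iff]; exact s.2.symm
    · symm; rw [mk_eq_iff]; simp
    · intro s; simp
    · intro h; simp
  rw [← e2, Nat.card_congr e1, Nat.card_sigma]
  rfl

lemma card_bY [Finite G] {H K : Subgroup G} (hHK : Nat.card H = Nat.card K)
    (β : MulAction.orbitRel.Quotient K (G ⧸ H)) :
    Nat.card {x // bX H K x = β} = Nat.card {y // bY H K y = β} := by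
  classical
  have := Fintype.ofFinite G
  have := Fintype.ofFinite (G ⧸ K)
  obtain ⟨x, rfl⟩ : ∃ x, bX H K x = β := Quotient.exists_rep β
  have h1 := sum_N H K x
  have h2 : ∑ y, N H K x y = Nat.card {y // bY H K y = bX H K x} *
      Nat.card (MulAction.stabilizer K x) := by
    rw [Nat.card_eq_fintype_card, Fintype.card_subtype, ← smul_eq_mul, ← Finset.sum_const,
      Finset.sum_filter]
    refine Finset.sum_congr rfl fun y _ => ?_
    split_ifs with hy
    · exact N_pos hy.symm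
    · exact N_zero fun h => hy h.symm
  have h3 := orbSize_mul (H := H) (K := K) x
  rw [h1, hHK, ← h3] at h2
  exact Nat.eq_of_mul_eq_mul_right Nat.card_pos h2

/-- The known product formula for the common transversal probability. -/
theorem ctp_eq [Finite G] (H K : Subgroup G) (hHK : Nat.card H = Nat.card K)
    [Fintype (MulAction.orbitRel.Quotient K (G ⧸ H))] :
    ctp H K = ∏ β : MulAction.orbitRel.Quotient K (G ⧸ H),
      ((orbSize β).factorial : ℚ) / (orbSize β : ℚ) ^ (orbSize β) := by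
  classical
  have := Fintype.ofFinite G
  have := Fintype.ofFinite (G ⧸ K)
  have := Fintype.ofFinite (G ⧸ H)
  have hcardK : (Nat.card K : ℚ) ≠ 0 := by exact_mod_cast Nat.card_pos.ne'
  have horb : ∀ β : MulAction.orbitRel.Quotient K (G ⧸ H), (orbSize β : ℚ) ≠ 0 := by
    intro β
    obtain ⟨x, rfl⟩ : ∃ x, bX H K x = β := Quotient.exists_rep β
    intro h0
    have := orbSize_mul (H := H) (K := K) x
    have h0' : orbSize (bX H K x) = 0 := by exact_mod_cast h0
    rw [h0', zero_mul] at this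
    exact hcardK (by rw [← this]; simp)
  have hN : ∀ x y, (N H K x y : ℚ) =
      if bX H K x = bY H K y then (Nat.card K : ℚ) / (orbSize (bX H K x) : ℚ) else 0 := by
    intro x y
    split_ifs with h
    · rw [N_pos h, eq_div_iff (horb _), ← orbSize_mul (H := H) (K := K) x]
      push_cast; ring
    · rw [N_zero h]; simp
  have hDT : (Nat.card (DT H K) : ℚ) = ∏ β : MulAction.orbitRel.Quotient K (G ⧸ H),
      ((orbSize β).factorial : ℚ) * ((Nat.card K : ℚ) / (orbSize β : ℚ)) ^ (orbSize β) := by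
    rw [card_DT, card_sec]
    push_cast
    simp only [hN]
    rw [perm_sum (bX H K) (bY H K) _ (fun β => (Nat.card K : ℚ) / (orbSize β : ℚ))]
    · refine Finset.prod_congr rfl fun β _ => ?_
      have : Fintype.card {x // bX H K x = β} = orbSize β := by
        rw [orbSize, Nat.card_eq_fintype_card]
      rw [this]
    · intro β
      rw [← Nat.card_eq_fintype_card, ← Nat.card_eq_fintype_card]
      exact card_bY hHK β
  have hidx : H.index = ∑ β : MulAction.orbitRel.Quotient K (G ⧸ H), orbSize β := by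
    rw [Subgroup.index, Nat.card_congr (Equiv.sigmaFiberEquiv (bX H K)).symm, Nat.card_sigma]
    rfl
  unfold ctp
  rw [hDT, hidx, hHK, ← Finset.prod_pow_eq_pow_sum, ← Finset.prod_div_distrib]
  refine Finset.prod_congr rfl fun β _ => ?_
  rw [div_pow]
  have h1 := horb β
  field_simp

end Pool.Agent.Lib.MP_e51b07_al
end

section

set_option autoImplicit false

namespace Pool.Agent.Lib.MP_e51b07_al

open Finset MulAction

universe u

/-- The permanent of `diag(T₁, …, T_s)` is `∏ t_i! / t_i ^ t_i`. -/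
theorem permanent_blockAvg {s : ℕ} (t : Fin s → ℕ) :
    (blockAvg t).permanent = ∏ i, ff (t i) := by
  have h := perm_sum (X := Σ i, Fin (t i)) (Y := Σ i, Fin (t i)) Sigma.fst Sigma.fst
    (fun _ => rfl) (fun i => 1 / (t i : ℚ))
  have h1 : (blockAvg t).permanent = ∑ π : (Σ i, Fin (t i)) ≃ (Σ i, Fin (t i)),
      ∏ x : (Σ i, Fin (t i)), (if x.1 = (π x).1 then 1 / (t x.1 : ℚ) else 0) := by
    unfold Matrix.permanent
    refine Finset.sum_congr rfl fun σ _ => Finset.prod_congr rfl fun x _ => ?_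
    simp only [blockAvg, Matrix.blockDiagonal'_apply, Matrix.of_apply, eq_comm (a := x.1)]
    split_ifs with hx
    · rw [hx]
    · rfl
  rw [h1, h]
  refine Finset.prod_congr rfl fun i _ => ?_
  have h2 : Fintype.card {x : (Σ i, Fin (t i)) // x.1 = i} = t i := by
    rw [← Fintype.card_fin (t i)]
    refine Fintype.card_congr ⟨fun x => x.2 ▸ x.1.2, fun y => ⟨⟨i, y⟩, rfl⟩, ?_, ?_⟩
    · rintro ⟨⟨j, y⟩, rfl⟩; rfl
    · intro y; rfl
  rw [h2]
  unfold ff
  rw [div_pow, one_pow]
  ring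

/-- The value `(1/2) * p!/p^p`, `p ≥ 5` prime, is not a common transversal probability. -/
theorem not_attained {p : ℕ} (hp : p.Prime) (h5 : 5 ≤ p) {G : Type u} [Group G] [Finite G]
    (H K : Subgroup G) (hHK : Nat.card H = Nat.card K) : ctp H K ≠ 1 / 2 * ff p := by
  classical
  intro h
  have := Fintype.ofFinite G
  have := Fintype.ofFinite (G ⧸ H)
  have := Fintype.ofFinite (orbitRel.Quotient K (G ⧸ H))
  rw [ctp_eq H K hHK] at h
  have hone : ∀ β : orbitRel.Quotient K (G ⧸ H), 1 ≤ orbSize β := by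
    intro β
    obtain ⟨x, rfl⟩ : ∃ x, bX H K x = β := Quotient.exists_rep β
    by_contra hcon
    have h0 : orbSize (bX H K x) = 0 := by omega
    have h1 := orbSize_mul (H := H) (K := K) x
    rw [h0, zero_mul] at h1
    exact Nat.card_pos.ne h1
  obtain ⟨β₁, β₂, h1, h2, h3⟩ := forced _ hone p hp (by omega) h
  obtain ⟨x0, rfl⟩ : ∃ x, bX H K x = β₁ := Quotient.exists_rep β₁
  obtain ⟨z, rfl⟩ : ∃ x, bX H K x = β₂ := Quotient.exists_rep β₂
  have hsize : ∀ x : G ⧸ H, Nat.card (orbit K x) = orbSize (bX H K x) := fun x =>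
    (orbSize_eq x).symm
  have hcard : Nat.card K = Nat.card (stabilizer G x0) := by
    have e1 : Nat.card (G ⧸ H) * Nat.card (stabilizer G x0) = Nat.card G := by
      have : Nat.card (orbit G x0) = Nat.card (G ⧸ H) := by
        rw [orbit_eq_univ, Nat.card_coe_set_eq, Set.ncard_univ]
      rw [← this, ← Nat.card_prod]
      exact Nat.card_congr (orbitProdStabilizerEquivGroup G x0)
    have e2 : Nat.card (G ⧸ H) * Nat.card H = Nat.card G := by
      rw [mul_comm]; exact Subgroup.card_mul_index H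
    rw [← hHK]
    exact Nat.eq_of_mul_eq_mul_left Nat.card_pos (e2.trans e1.symm)
  have hmem : ∀ x y : G ⧸ H, bX H K x = bX H K y → x ∈ orbit K y := by
    intro x y hxy
    rw [bX_eq_iff] at hxy
    exact hxy
  have key := obstruction (X := G ⧸ H) K x0 hcard ((hsize x0).trans h1) (fun x hx => by
      have hx' : orbSize (bX H K x) = 2 := (hsize x).symm.trans hx
      by_contra hn
      have hne1 : bX H K x ≠ bX H K x0 := fun he => hn (hmem x x0 he)
      have hne2 : bX H K x ≠ bX H K z := by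
        intro he
        rw [he, h2] at hx'
        omega
      have := h3 _ hne1 hne2
      omega) p h5 z ((hsize z).trans h2) (fun x hx => by
      have hne2 : bX H K x ≠ bX H K z := fun he => hx (hmem x z he)
      refine (hsize x).trans_le ?_
      by_cases hne1 : bX H K x = bX H K x0
      · rw [hne1, h1]
      · rw [h3 _ hne1 hne2]; norm_num)
  rcases key with h4 | h4
  · rw [Nat.prime_dvd_prime_iff_eq Nat.prime_two hp] at h4; omega
  · rw [Nat.prime_dvd_prime_iff_eq Nat.prime_three hp] at h4; omega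

end Pool.Agent.Lib.MP_e51b07_al
end
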